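import Pool.Agent.Lib.MP_a0e17f.T.RTR

/-!
# A lower bound for `N(k,d)` from `K_{3,3}` blocks

For `j ≥ 1`, `k ≥ 27j - 21` and `d ≥ k + 4j - 3` there is a `k`-independent set of
`2d - k + 2 + j` points of `ℝ^d` which is not `(2,k)`-divisible, so `N(k,d) ≥ 2d - k + 3 + j`. The
definitions `KIndep`, `Divisible`, `N` are in `Pool.Agent.Lib.MP_a0e17f.Defs`.
-/

namespace Pool.Agent.Results.MP_a0e17f_co.BipartiteBlocks

open MPa0e17f

theorem result : ∀ j k d : ℕ, 1 ≤ j → 27 * j ≤ k + 21 → k + 4 * j ≤ d + 3 →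
    (∃ S : Finset (EuclideanSpace ℝ (Fin d)), KIndep k S ∧ ¬ Divisible k S ∧
      S.card + k = 2 * d + 2 + j) ∧ 2 * d + 3 + j ≤ N k d + k :=
  finL

end Pool.Agent.Results.MP_a0e17f_co.BipartiteBlocks
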