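import Pool.Agent.Lib.MP_a0e17f.T.FinA
import Pool.Agent.Lib.MP_a0e17f.T.FinH

/-!
# `N(k,d) ≤ 2d + 2 - t` for `k ≥ k0(t)`, `d ≥ k + t`, with `k0` linear in `t`

Every `k`-independent set of at least `2d + 2 - t` points of `ℝ^d` is `(2,k)`-divisible if `t ≥ 2`, `d ≥ k + t` and
`k ≥ k0(t)`, `k0(2) = 3`, `k0(t) = 44 t - 19` for `t ≥ 3`. Together with the lower bound `d + k + 2` this gives the
exact values `N(k,k+t) = 2k + t + 2` for `k ≥ k1(t)`, `k1(2) = 3`, `k1(t) = 26 t - 1` for `t ≥ 3`, and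
`N(3,d) = 2d` for all `d ≥ 5`. The definitions `KIndep`, `Divisible`, `N` are in `Pool.Agent.Lib.MP_a0e17f.Defs`.
-/

namespace Pool.Agent.Results.MP_a0e17f_co.LinearRange

open MPa0e17f

theorem result :
    (∀ t k d : ℕ, 2 ≤ t → (if t = 2 then 3 else 44 * t - 19) ≤ k → k + t ≤ d →
      (∀ S : Finset (EuclideanSpace ℝ (Fin d)), KIndep k S → 2 * d + 2 - t ≤ S.card →
        Divisible k S) ∧
      N k d ≤ 2 * d + 2 - t) ∧
    (∀ t k : ℕ, 2 ≤ t → (if t = 2 then 3 else 26 * t - 1) ≤ k → N k (k + t) = 2 * k + t + 2) ∧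
    (∀ d : ℕ, 5 ≤ d → N 3 d = 2 * d) := by
  refine ⟨?_, ?_, ?_⟩
  · intro t k d ht hk hkd
    split_ifs at hk with h2
    · subst h2
      exact ⟨fun S hS hc => (finA k d hk hkd).1 S hS (by omega), by
        have := (finA k d hk hkd).2.2
        omega⟩
    · obtain ⟨h3, h4⟩ := finH.1 t k d (by omega) (by omega) hkd
      exact ⟨fun S hS hc => h3 S hS (by omega), by omega⟩
  · intro t k ht hk
    split_ifs at hk with h2
    · subst h2
      obtain ⟨-, h3, h4⟩ := finA k (k + 2) hk le_rfl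
      rw [max_le_iff] at h3
      omega
    · exact finH.2 t k (by omega) (by omega)
  · intro d hd
    obtain ⟨-, h1, h2⟩ := finA 3 d le_rfl (by omega)
    rw [max_le_iff] at h1
    omega

end Pool.Agent.Results.MP_a0e17f_co.LinearRange
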