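import Pool.Agent.Lib.MP_a0e17f.T.GTV
import Pool.Agent.Lib.MP_a0e17f.T.TLK
import Pool.Agent.Lib.MP_a0e17f.T.HST
import Pool.Agent.Lib.MP_a0e17f.T.RC2
import Pool.Agent.Lib.MP_a0e17f.T.RTR
import Pool.Agent.Lib.MP_a0e17f.T.RSM

/-!
# A removal criterion for `(2,k)`-divisibility

Let `S ⊂ ℝ^d` be a finite `k`-independent set and let `G ⊆ S` be a subset such that `G` without any
one of its points still affinely spans `S`. If `|S \ G| = k + 1`, or if `|S \ G| = k` and every
hyperplane not containing `S` misses at least three points of `S`, then `S` is `(2,k)`-divisible. In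
particular a `k`-independent set of at least `d + k + 3` points of `ℝ^d` which contains `d + 2`
points in general position is `(2,k)`-divisible. The definitions `KIndep`, `Divisible` are in
`Pool.Agent.Lib.MP_a0e17f.Defs`.
-/

namespace Pool.Agent.Results.MP_a0e17f_co.RemovalCriterion

open MPa0e17f

theorem result :
    (∀ (k d : ℕ) (S G : Finset (EuclideanSpace ℝ (Fin d))), KIndep k S → G ⊆ S → G.Nonempty →
      (∀ q ∈ G, ∀ x ∈ S, x ∈ affineSpan ℝ ((G : Set (EuclideanSpace ℝ (Fin d))) \ {q})) →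
      (S.card = G.card + (k + 1) ∨
        (S.card = G.card + k ∧
          ∀ f : EuclideanSpace ℝ (Fin d) →ᵃ[ℝ] ℝ, (∃ x ∈ S, f x ≠ 0) →
            ∃ T ⊆ S, T.card = 3 ∧ ∀ x ∈ T, f x ≠ 0)) →
      Divisible k S) ∧
    (∀ (k d : ℕ) (S G : Finset (EuclideanSpace ℝ (Fin d))), KIndep k S → G ⊆ S →
      G.card = d + 2 → KIndep d G → d + k + 3 ≤ S.card → Divisible k S) := by
  classical
  refine ⟨?_, ?_⟩
  · intro k d S G hS hG hne h hc
    have h' : ∀ q ∈ G, ∀ x ∈ S, x ∈ affineSpan ℝ ((G.erase q : Finset _) :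
        Set (EuclideanSpace ℝ (Fin d))) := by
      intro q hq x hx
      rw [Finset.coe_erase]
      exact h q hq x hx
    rcases hc with hc | ⟨hc, h3⟩
    · exact critA specRTR (specRC1 specPRT specTLK) k d S G hS hG hne hc h'
    · exact critB specRTR (specRC2 specPRT specTLK (specGRW specSTP)) specRSM k d S G hS hG hne hc h' h3
  · intro k d S G hS hG hGc hGi hc
    exact critC specRTR (specRC1 specPRT specTLK) k d S G hS hG hc hGc hGi

end Pool.Agent.Results.MP_a0e17f_co.RemovalCriterion
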