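import Pool.Agent.Lib.MP_a0e17f.Lower

/-!
# The threshold `N(k,d)` for `(2,k)`-divisibility of `k`-independent sets

For all `2 ≤ k ≤ d - 1` we prove `max (d+k+2) (2d-k+3) ≤ N(k,d) ≤ 2d+1`. In particular
`N(k,d) < (d-k+2)(k+1)` for every such pair, and `N(2,d) = N(d-1,d) = 2d+1` for all `d ≥ 3`.
The definitions `KIndep`, `Divisible`, `N` are in `Pool.Agent.Lib.MP_a0e17f.Defs`.
-/

namespace Pool.Agent.Results.MP_a0e17f_co.ThresholdBounds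

open MPa0e17f

theorem result :
    (∀ k d : ℕ, 2 ≤ k → k + 1 ≤ d →
      (∀ S : Finset (EuclideanSpace ℝ (Fin d)), KIndep k S → 2 * d + 1 ≤ S.card →
        Divisible k S) ∧
      d + k + 2 ≤ N k d ∧ 2 * d + 3 - k ≤ N k d ∧ N k d ≤ 2 * d + 1 ∧
      N k d < (d - k + 2) * (k + 1)) ∧
    (∀ d : ℕ, 3 ≤ d → N 2 d = 2 * d + 1 ∧ N (d - 1) d = 2 * d + 1) := by
  have main : ∀ k d : ℕ, 2 ≤ k → k + 1 ≤ d →
      (∀ S : Finset (EuclideanSpace ℝ (Fin d)), KIndep k S → 2 * d + 1 ≤ S.card →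
        Divisible k S) ∧
      d + k + 2 ≤ N k d ∧ 2 * d + 3 - k ≤ N k d ∧ N k d ≤ 2 * d + 1 := by
    intro k d hk hkd
    obtain ⟨h1, h2, h3⟩ := N_bounds k d hk hkd
    rw [max_le_iff] at h2
    exact ⟨h1, h2.1, h2.2, h3⟩
  refine ⟨?_, ?_⟩
  · intro k d hk hkd
    obtain ⟨h1, h2, h3, h4⟩ := main k d hk hkd
    refine ⟨h1, h2, h3, h4, lt_of_le_of_lt h4 ?_⟩
    obtain ⟨a, rfl⟩ : ∃ a, d = k + 1 + a := ⟨d - (k + 1), by omega⟩
    have e : k + 1 + a - k + 2 = a + 3 := by omega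
    rw [e]
    nlinarith [Nat.zero_le a, Nat.zero_le k, Nat.mul_le_mul hk (Nat.le_refl a)]
  · intro d hd
    obtain ⟨-, -, h3, h4⟩ := main 2 d le_rfl (by omega)
    obtain ⟨-, h2', -, h4'⟩ := main (d - 1) d (by omega) (by omega)
    constructor <;> omega

end Pool.Agent.Results.MP_a0e17f_co.ThresholdBounds
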